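import Pool.Agent.H211.CH.Stm2

/-!
# Irreducibility of `p (x) - F (y)` for coprime degrees (statement `S_IRR` of project CH)
-/

set_option autoImplicit false

open Polynomial

namespace Pool.Agent.H341.CH211

open Pool.Agent.H211.CH

universe u

section one

variable {K : Type u} [Field K]

/-- The substitution `y = β s ^ m`, `x = s ^ n`. -/
noncomputable def phi (m n : ℕ) (β : K) : K[X][X] →+* K[X] :=
  eval₂RingHom (eval₂RingHom C (C β * X ^ m)) (X ^ n)

theorem phi_apply (m n : ℕ) (β : K) (G : K[X][X]) :
    phi m n β G =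
      ∑ i ∈ Finset.range (G.natDegree + 1), (G.coeff i).comp (C β * X ^ m) * X ^ (n * i) := by
  unfold phi
  rw [coe_eval₂RingHom, eval₂_eq_sum_range]
  refine Finset.sum_congr rfl fun i _ => ?_
  rw [← pow_mul]
  rfl

theorem comp_ne {m : ℕ} (hm : 0 < m) {β : K} (hβ : β ≠ 0) {g : K[X]} (hg : g ≠ 0) :
    g.comp (C β * X ^ m) ≠ 0 := by
  intro h
  rcases comp_eq_zero_iff.1 h with h | ⟨_, h⟩
  · exact hg h
  · have := natDegree_C_mul_X_pow m β hβ
    rw [h, natDegree_C] at this
    omega

theorem term_zero (m n i : ℕ) (β : K) :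
    (((0 : K[X]).comp (C β * X ^ m)) * X ^ (n * i)).degree = ⊥ := by simp

theorem term_deg {m : ℕ} (hm : 0 < m) (n i : ℕ) {β : K} (hβ : β ≠ 0) {g : K[X]} (hg : g ≠ 0) :
    ((g.comp (C β * X ^ m)) * X ^ (n * i)).degree = ((g.natDegree * m + n * i : ℕ) : WithBot ℕ) := by
  have h1 := comp_ne hm hβ hg
  have h2 : (g.comp (C β * X ^ m)) * X ^ (n * i) ≠ 0 := mul_ne_zero h1 (pow_ne_zero _ X_ne_zero)
  rw [degree_eq_natDegree h2, natDegree_mul h1 (pow_ne_zero _ X_ne_zero), natDegree_comp,
    natDegree_C_mul_X_pow m β hβ, natDegree_X_pow]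

open scoped Classical in
/-- the degree after the substitution does not depend on `β` -/
theorem deg_indep {m n : ℕ} (hm : 0 < m) (hc : Nat.Coprime m n) {G : K[X][X]} (hG : G.natDegree < m)
    {β : K} (hβ : β ≠ 0) :
    (phi m n β G).degree =
      (Finset.range (G.natDegree + 1)).sup fun i =>
        if G.coeff i = 0 then ⊥ else (((G.coeff i).natDegree * m + n * i : ℕ) : WithBot ℕ) := by
  have hterm : ∀ i, ((G.coeff i).comp (C β * X ^ m) * X ^ (n * i)).degree =
      if G.coeff i = 0 then ⊥ else (((G.coeff i).natDegree * m + n * i : ℕ) : WithBot ℕ) := by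
    intro i
    by_cases h : G.coeff i = 0
    · rw [if_pos h, h, term_zero]
    · rw [if_neg h, term_deg hm n i hβ h]
  rw [phi_apply, degree_sum_eq_of_disjoint]
  · exact Finset.sup_congr rfl fun i _ => hterm i
  · intro i hi j hj hij
    obtain ⟨hi1, hi2⟩ := hi
    obtain ⟨hj1, hj2⟩ := hj
    have hi3 : G.coeff i ≠ 0 := by
      intro h; apply hi2; rw [h]; simp
    have hj3 : G.coeff j ≠ 0 := by
      intro h; apply hj2; rw [h]; simp
    simp only [Function.onFun, Function.comp]
    rw [term_deg hm n i hβ hi3, term_deg hm n j hβ hj3]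
    intro h
    have h' : (G.coeff i).natDegree * m + n * i = (G.coeff j).natDegree * m + n * j := by
      exact_mod_cast h
    have hi4 : i < m := by
      have := Finset.mem_range.1 hi1
      omega
    have hj4 : j < m := by
      have := Finset.mem_range.1 hj1
      omega
    have h5 : (n * i) ≡ (n * j) [MOD m] := by
      have e1 : (G.coeff i).natDegree * m + n * i ≡ n * i [MOD m] := by
        simp [Nat.ModEq]
      have e2 : (G.coeff j).natDegree * m + n * j ≡ n * j [MOD m] := by
        simp [Nat.ModEq]
      exact e1.symm.trans ((Nat.ModEq.refl _).trans (h' ▸ e2))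
    have h6 : i ≡ j [MOD m] := Nat.ModEq.cancel_left_of_coprime (by simpa using hc) h5
    have h7 : i = j := by
      have := h6
      unfold Nat.ModEq at this
      rwa [Nat.mod_eq_of_lt hi4, Nat.mod_eq_of_lt hj4] at this
    exact hij h7

theorem phi_P (p F : K[X]) (β : K) :
    phi p.natDegree F.natDegree β (p.map C - C F) =
      p.comp (X ^ F.natDegree) - F.comp (C β * X ^ p.natDegree) := by
  have e : (eval₂RingHom (C : K →+* K[X]) (C β * X ^ p.natDegree)).comp C = C := by
    ext a
    simp
  unfold phi
  rw [map_sub, coe_eval₂RingHom, eval₂_C, eval₂_map, e]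
  rfl

theorem phi_P_le (p F : K[X]) (β : K) :
    (phi p.natDegree F.natDegree β (p.map C - C F)).natDegree ≤ p.natDegree * F.natDegree := by
  rw [phi_P]
  refine (natDegree_sub_le _ _).trans (max_le ?_ ?_)
  · rw [natDegree_comp, natDegree_X_pow]
  · rw [natDegree_comp, mul_comm]
    exact Nat.mul_le_mul_right _ (natDegree_C_mul_X_pow_le _ _)

theorem phi_P_coeff (p F : K[X]) {β : K} (hβ : β ≠ 0) (hp : 0 < p.natDegree) (hF : 0 < F.natDegree) :
    (phi p.natDegree F.natDegree β (p.map C - C F)).coeff (p.natDegree * F.natDegree) =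
      p.leadingCoeff - F.leadingCoeff * β ^ F.natDegree := by
  rw [phi_P, coeff_sub]
  have e1 : (p.comp (X ^ F.natDegree)).coeff (p.natDegree * F.natDegree) = p.leadingCoeff := by
    have h := coeff_comp_degree_mul_degree (p := p) (q := (X : K[X]) ^ F.natDegree)
      (by rw [natDegree_X_pow]; omega)
    rw [natDegree_X_pow, (monic_X_pow _).leadingCoeff, one_pow, mul_one] at h
    exact h
  have e2 : (F.comp (C β * X ^ p.natDegree)).coeff (p.natDegree * F.natDegree) =
      F.leadingCoeff * β ^ F.natDegree := by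
    have h := coeff_comp_degree_mul_degree (p := F) (q := C β * (X : K[X]) ^ p.natDegree)
      (by rw [natDegree_C_mul_X_pow _ _ hβ]; omega)
    rw [natDegree_C_mul_X_pow _ _ hβ, leadingCoeff_C_mul_X_pow, mul_comm F.natDegree] at h
    exact h
  rw [e1, e2]

end one

theorem t_IRR {K : Type u} [Field K] [IsAlgClosed K] [CharZero K] : S_IRR K := by
  intro p F hp hF hc
  have hp0 : p ≠ 0 := by rintro rfl; simp at hp
  have hF0 : F ≠ 0 := by rintro rfl; simp at hF
  have hlp : p.leadingCoeff ≠ 0 := leadingCoeff_ne_zero.2 hp0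
  have hlF : F.leadingCoeff ≠ 0 := leadingCoeff_ne_zero.2 hF0
  have hmap : (p.map C : K[X][X]).natDegree = p.natDegree := natDegree_map_eq_of_injective C_injective p
  have hdeg : ((p.map C - C F : K[X][X])).natDegree = p.natDegree := by
    rw [natDegree_sub_C, hmap]
  have hlead : ((p.map C - C F : K[X][X])).leadingCoeff = C p.leadingCoeff := by
    rw [leadingCoeff, hdeg, coeff_sub, coeff_C, if_neg (by omega), sub_zero, coeff_map]
    rfl
  have hP0 : (p.map C - C F : K[X][X]) ≠ 0 := by
    intro h
    rw [h, natDegree_zero] at hdeg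
    omega
  refine ⟨?_, ?_⟩
  · intro h
    have := natDegree_eq_zero_of_isUnit h
    omega
  · intro G H hGH
    have hG0 : G ≠ 0 := by
      rintro rfl
      rw [zero_mul] at hGH
      exact hP0 hGH
    have hH0 : H ≠ 0 := by
      rintro rfl
      rw [mul_zero] at hGH
      exact hP0 hGH
    have hsum : G.natDegree + H.natDegree = p.natDegree := by
      rw [← hdeg, hGH, natDegree_mul hG0 hH0]
    have hlu : IsUnit (G.leadingCoeff * H.leadingCoeff) := by
      rw [← leadingCoeff_mul, ← hGH, hlead]
      exact (isUnit_iff_ne_zero.2 hlp).map C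
    have hunit : ∀ Q : K[X][X], Q.natDegree = 0 → IsUnit Q.leadingCoeff → IsUnit Q := by
      intro Q h1 h2
      rw [eq_C_of_natDegree_eq_zero h1]
      have : Q.coeff 0 = Q.leadingCoeff := by rw [leadingCoeff, h1]
      rw [this]
      exact h2.map C
    by_cases hg : G.natDegree = 0
    · left
      exact hunit G hg (isUnit_of_mul_isUnit_left hlu)
    by_cases hh : H.natDegree = 0
    · right
      exact hunit H hh (isUnit_of_mul_isUnit_right hlu)
    exfalso
    -- the two values of `β`
    obtain ⟨β, hβ⟩ := IsAlgClosed.exists_pow_nat_eq (p.leadingCoeff / F.leadingCoeff) hF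
    have hβ0 : β ≠ 0 := by
      rintro rfl
      rw [zero_pow (by omega)] at hβ
      exact (div_ne_zero hlp hlF) hβ.symm
    have h2 : (2 : K) ^ F.natDegree ≠ 1 := by
      have h3 : (2 : ℕ) ^ F.natDegree ≠ 1 := by
        have := Nat.one_lt_two_pow (n := F.natDegree) (by omega)
        omega
      intro h
      apply h3
      exact_mod_cast h
    have hβ2 : (2 * β) ≠ 0 := mul_ne_zero two_ne_zero hβ0
    have hd : ∀ γ : K, γ ≠ 0 → (phi p.natDegree F.natDegree γ (p.map C - C F)).degree =
        (phi p.natDegree F.natDegree β G).degree + (phi p.natDegree F.natDegree β H).degree := by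
      intro γ hγ
      rw [hGH, map_mul, degree_mul, deg_indep hp hc (by omega) hγ, deg_indep hp hc (by omega) hγ,
        deg_indep hp hc (by omega) hβ0, deg_indep hp hc (by omega) hβ0]
    have hpos : 0 < p.natDegree * F.natDegree := Nat.mul_pos hp hF
    -- `2 β`: the degree is `m n`
    have c2 : (phi p.natDegree F.natDegree (2 * β) (p.map C - C F)).coeff
        (p.natDegree * F.natDegree) ≠ 0 := by
      rw [phi_P_coeff p F hβ2 hp hF, mul_pow, hβ]
      intro h
      apply h2
      have e : F.leadingCoeff * (p.leadingCoeff / F.leadingCoeff) = p.leadingCoeff :=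
        mul_div_cancel₀ _ hlF
      have h5 : p.leadingCoeff * ((2 : K) ^ F.natDegree - 1) = 0 := by
        linear_combination (-1 : K) * h - (2 : K) ^ F.natDegree * e
      rcases mul_eq_zero.1 h5 with h5 | h5
      · exact absurd h5 hlp
      · linear_combination h5
    have c1 : (phi p.natDegree F.natDegree β (p.map C - C F)).coeff
        (p.natDegree * F.natDegree) = 0 := by
      rw [phi_P_coeff p F hβ0 hp hF, hβ, mul_div_cancel₀ _ hlF, sub_self]
    have d2 : ((p.natDegree * F.natDegree : ℕ) : WithBot ℕ) ≤
        (phi p.natDegree F.natDegree (2 * β) (p.map C - C F)).degree := le_degree_of_ne_zero c2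
    have d1 : (phi p.natDegree F.natDegree β (p.map C - C F)).degree <
        ((p.natDegree * F.natDegree : ℕ) : WithBot ℕ) := by
      rcases eq_or_ne (phi p.natDegree F.natDegree β (p.map C - C F)) 0 with h0 | h0
      · rw [h0, degree_zero]
        exact WithBot.bot_lt_coe _
      · rw [degree_eq_natDegree h0]
        have h6 := phi_P_le p F β
        have h7 : (phi p.natDegree F.natDegree β (p.map C - C F)).natDegree ≠
            p.natDegree * F.natDegree := by
          intro h8
          apply h0
          rw [← leadingCoeff_eq_zero, leadingCoeff, h8]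
          exact c1
        exact_mod_cast lt_of_le_of_ne h6 h7
    rw [hd β hβ0] at d1
    rw [hd (2 * β) hβ2] at d2
    exact absurd d1 (not_lt.2 d2)

end Pool.Agent.H341.CH211
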